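import Mathlib
import Pool.Agent.Results.MP_0b9e0b_ag.MultiquadraticProducts
import Pool.Agent.V11161.BH.ParH

/-!
# The conjecture modulo two, with order and rank zero, over the fields generated by clusters of primes

`E_M` is the quadratic twist by `M` of `X_0(14)`, an elliptic curve without complex multiplication with one
rational point of order two. The class `Adm` consists of the squarefree integers, positive or negative,
`1` modulo `4`, squares modulo `7`, whose prime divisors split completely in `ℚ(i, √2, √-7)` or are inert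
in `ℚ(√2)` and in `ℚ(√-7)`, and are inert in the cyclotomic `ℤ₃`-extension of `ℚ`. For `M` in the class and
a finite subset `S₀` of the class, independent modulo squares, let `OrderIsRank S₀ M` be the statement on
`k = ℚ(√d : d ∈ S₀)`, of degree `2^#S₀`: the `L`-function of `E_M` over `k` is entire, its order at `s = 1`
and the rank of `E_M(k)` are both zero (so the conjecture modulo two, and the full conjecture on the
rank, holds), and `2^#S₀` kills the 2-primary part of `Ш(E_M/k)`. By the team's starting result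
`MultiquadraticProducts` (MP_0b9e0b_ag) this follows from the criterion for `M` and `S₀`: rank zero and
`Ш[2] = 0` for the squarefree parts of the products of `M` and elements of `S₀` (for `S₀ = ∅`: for `E_M`).

The theorem: from ANY finite set `T` of the class and ANY `S₀` we find clusters of primes such that the
criterion for the elements of `T`, if it is satisfied, remains true for the extensions of `k` by the
square roots of the primes of the cluster, and for the twists by their products. Let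
`P = 504 ∏_{M ∈ T} |M| ∏_{d ∈ S₀} |d|`, and let `c` be prime to `P`, `3` modulo `8`, a nonsquare modulo `7`,
not `± 1` modulo `9`, and a square modulo the prime divisors `l = 1` modulo `8` of the elements of `T`
and `S₀`; there are such `c`. For all `n` and `η > 0` there are `z`, `d`, `C`, `X₀` and `ρ, b > 0`, which
depend only on `n` and `η`, such that for all `T`, `S₀`, all `c` and every `X ≥ X₀` there are frequencies
`θ_1, …, θ_d` with the following property. Let `B` be the Bohr set of all integers `|h| ≤ X` with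
`|exp (2 π i h θ_j) - 1| ≤ ρ` for all `j`; it has at least `b X` elements. Put `W = P z!`. For at least
`(1 - η) |B| ^ n` of the vectors `(h_1, …, h_n)` in `B ^ n` (the entries being distinct and not zero) and
for arbitrarily large `N`, the same for all these vectors, there are at least `N / (log N) ^ C` primes
`p ≤ N` such that `p_0 = p` and the `p_i = p + W h_i` are primes congruent to `c` modulo `P`, the set
`S₀ ∪ S`, `S = {- p_0, …, - p_n}`, is a subset of the class with `#S₀ + n + 1` elements, independent modulo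
squares, and if the criterion for `S₀` is satisfied for all the elements of `T`, then for all the
`2 ^ (n + 1)` twists `M' = M ∏_{d ∈ U} d`, `U ⊆ S`, of the curves `E_M`, `M ∈ T`, the statement
`OrderIsRank V M'` is true for ALL the subsets `V` of `S₀ ∪ S`, that is, over all the subfields
`ℚ(√d : d ∈ V)` of `k(√-p_0, …, √-p_n)`.

New here: the matrices over `𝔽₂` of the products with the `- p_i` do not change
(`Pool.Agent.V11161.BH.det_mul_DD`), and the configurations of the primes
(`Pool.Agent.V11161.BH.bohrAPU`, uniform in the modulus).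
-/

set_option autoImplicit false

open Filter NumberField IsDedekindDomain

namespace Pool.Agent.Results.MP_413b36_nt.ClusterExtensions

open Pool.Agent.TH841.NF.D (Sha)

open Pool.Agent.Results.MP_787500_nt.LayersBlochKatoLaw (Adm Small base factor rank twist
  multiquadratic)

open Pool.Agent.Results.MP_0b9e0b_ag.MultiquadraticProducts (IsBase IsFamily Criterion
  factorX dimension BeilinsonBloch Holds)

open Classical in
/-- `L` is entire and is, for `Re s > 3/2`, the `L`-function of `E_M` over `k` without the Euler factors at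
the places that divide `42 M N` (these do not change the order at `s = 1`) -/
def IsL (k : Type) [Field k] [NumberField k] (M N : ℤ) (L : ℂ → ℂ) : Prop :=
  Differentiable ℂ L ∧ ∀ s : ℂ, 3 / 2 < s.re →
    HasProd (fun v : HeightOneSpectrum (𝓞 k) =>
      if ((42 * M * N : ℤ) : 𝓞 k) ∈ v.asIdeal then 1 else factor (K := k) (twist M) s v) (L s)

/-- Over `k = ℚ(√d : d ∈ S)`, of degree `2^#S`, the rank of `E_M` is zero, the `L`-function is entire, its
order at `s = 1` is the rank, and the 2-primary part of `Ш(E_M/k)` is killed by `2^#S`. -/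
def OrderIsRank (S : Finset ℤ) (M : ℤ) : Prop :=
  ∀ (k : IntermediateField ℚ ℂ) [NumberField k], k = multiquadratic S →
    Module.finrank ℚ k = 2 ^ S.card ∧ rank k (twist M) = 0 ∧
    (∃ L : ℂ → ℂ, IsL k M (∏ d ∈ S, d) L ∧ analyticOrderAt L 1 = rank k (twist M)) ∧
    ∀ (j : ℕ) (y : Sha (base (twist M) k)), 2 ^ j • y = 0 → 2 ^ S.card • y = 0

/-- the modulus `P = 504 ∏_{M ∈ T} |M| ∏_{d ∈ S₀} |d|` -/
def modulus (T S₀ : Finset ℤ) : ℕ := 504 * ((∏ M ∈ T, M.natAbs) * ∏ d ∈ S₀, d.natAbs)

/-- `c` is prime to `P`, `3` modulo `8`, a nonsquare modulo `7`, inert in the cyclotomic `ℤ₃`-extension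
(`2`, `4`, `5`, `7` modulo `9`), and a square modulo the prime divisors `1` modulo `8` of the elements of
`T` and `S₀` -/
def Residue (T S₀ : Finset ℤ) (c : ℕ) : Prop :=
  c.Coprime (modulus T S₀) ∧ c % 8 = 3 ∧ (c % 7 = 3 ∨ c % 7 = 5 ∨ c % 7 = 6) ∧
    (c % 9 = 2 ∨ c % 9 = 4 ∨ c % 9 = 5 ∨ c % 9 = 7) ∧
    ∀ M ∈ T ∪ S₀, ∀ l : ℕ, l.Prime → (l : ℤ) ∣ M → l % 8 = 1 → IsSquare (c : ZMod l)

/-- `x* = ± x`, congruent to `1` modulo `4` for odd `x` -/
def star (x : ℤ) : ℤ := if x % 4 = 1 then x else -x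

/-- the numbers `p, p + W h_1, …, p + W h_k` -/
def members {k : ℕ} (W : ℕ) (h : Fin k → ℤ) (p : ℕ) : Fin (k + 1) → ℤ :=
  Fin.cons (p : ℤ) fun i => (p : ℤ) + W * h i

/-- the set of the `x*`, `x` running through the members of the cluster -/
noncomputable def stars {k : ℕ} (W : ℕ) (h : Fin k → ℤ) (p : ℕ) : Finset ℤ :=
  (Finset.univ : Finset (Fin (k + 1))).image fun i => star (members W h p i)

/-- the statement on `T`, `S₀` and the set `S` of the cluster -/
def Statement (T S₀ S : Finset ℤ) : Prop :=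
  ∀ M ∈ T, ∀ U ⊆ S, Adm (M * ∏ d ∈ U, d) ∧
    ((∀ M₀ ∈ T, Criterion {1} S₀ M₀) → ∀ V ⊆ S₀ ∪ S, OrderIsRank V (M * ∏ d ∈ U, d))

/-- the primes `p ≤ N` of the class of `c` for which all the `p + W h_i` are primes of the class, the set
`S` of the cluster adds `k + 1` elements to `S₀`, `S₀ ∪ S` is a subset of the class `Adm`, independent
modulo squares, and the statement holds -/
def goodPrimes {k : ℕ} (T S₀ : Finset ℤ) (c W : ℕ) (h : Fin k → ℤ) (N : ℕ) : Set ℕ :=
  {p : ℕ | p ≤ N ∧ p.Prime ∧ p % modulus T S₀ = c % modulus T S₀ ∧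
    (∀ i, ∃ q : ℕ, q.Prime ∧ q % modulus T S₀ = c % modulus T S₀ ∧ (q : ℤ) = p + W * h i) ∧
    (S₀ ∪ stars W h p).card = S₀.card + (k + 1) ∧ IsBase (S₀ ∪ stars W h p) ∧
    Statement T S₀ (stars W h p)}

/-- the Bohr set of the frequencies `θ_j`, of radius `ρ` and width `X` -/
def bohrSet {d : ℕ} (θ : Fin d → ℝ) (ρ : ℝ) (X : ℕ) : Set ℤ :=
  {h : ℤ | |h| ≤ X ∧ ∀ j, ‖Complex.exp (2 * Real.pi * Complex.I * (h * θ j)) - 1‖ ≤ ρ}

lemma isL_of {k : Type} [Field k] [NumberField k] {M N : ℤ} {L : ℂ → ℂ} (h : Differentiable ℂ L)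
    (h2 : ∀ s : ℂ, 3 / 2 < s.re → HasProd (factorX k {M} N s) (L s)) : IsL k M N L := by
  classical
  refine ⟨h, fun s hs => ?_⟩
  have h5 := h2 s hs
  have e : factorX k {M} N s = fun v : HeightOneSpectrum (𝓞 k) =>
      if ((42 * M * N : ℤ) : 𝓞 k) ∈ v.asIdeal then 1 else factor (K := k) (twist M) s v := by
    funext v
    unfold factorX
    rw [Finset.prod_singleton]
  rw [e] at h5
  exact h5

lemma single {S : Finset ℤ} (hS : IsBase S) {M : ℤ} (hM : Adm M) (hc : Criterion {1} S M) :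
    OrderIsRank S M := by
  have hB1 : IsFamily {1} S := ⟨fun x hx => by
      rw [Finset.mem_singleton.1 hx]
      exact Pool.Agent.V11161.BH.adm_one, fun x hx y hy hne => absurd ((Finset.mem_singleton.1 hx).trans
      (Finset.mem_singleton.1 hy).symm) hne⟩
  obtain ⟨T, h1, h2, h3⟩ :=
    Pool.Agent.Results.MP_0b9e0b_ag.MultiquadraticProducts.result.1 S {1} hS hB1 M hM
  have h4 : Holds S T := h3 hc
  have hMT : M ∈ T := (h1 M).2 ⟨hM, 1, Finset.mem_singleton_self 1, 1, by ring⟩
  have hT : T = {M} := by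
    rw [Finset.card_singleton] at h2
    obtain ⟨x, hx⟩ := Finset.card_eq_one.1 h2
    rw [hx] at hMT ⊢
    rw [Finset.mem_singleton.1 hMT]
  subst hT
  intro k _ hk
  obtain ⟨g1, ⟨L, g2, g3, g4⟩, g5, g6⟩ := h4 k hk
  have hdim : dimension k {M} = rank k (twist M) := by
    unfold dimension
    rw [Finset.sum_singleton]
  exact ⟨g1, hdim.symm.trans g5, ⟨L, isL_of g2 g3, by rw [g4, hdim]⟩,
    g6 M (Finset.mem_singleton_self M)⟩

lemma good_of {T S₀ : Finset ℤ} (hT : ∀ M ∈ T, Adm M) (h : ∀ M₀ ∈ T, Criterion {1} S₀ M₀) :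
    Pool.Agent.Results.MP_009fd8_ag.LayersProducts.Good T S₀ := by
  refine ⟨hT, fun M hM U hU D z hD hz => ?_⟩
  refine h M hM 1 (Finset.mem_singleton_self 1) U hU D z hD ?_
  rw [one_mul]
  exact hz

open Pool.Agent.V11161.BH in
theorem classPrimes_sub {k : ℕ} {T S₀ : Finset ℤ} (hT : ∀ M ∈ T, Adm M) (hS₀ : IsBase S₀) {c W : ℕ}
    (hc : Residue T S₀ c) {h : Fin k → ℤ} (hh0 : ∀ i, h i ≠ 0)
    (hinj : Function.Injective h) (hW : 0 < W) (N : ℕ) :
    classPrimes (modulus T S₀) c W h N ⊆ goodPrimes T S₀ c W h N := by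
  intro p hp
  obtain ⟨c1, c2, c3, c4, c5⟩ := hc
  obtain ⟨g1, g2, g3, -⟩ := cluster_base hT hS₀ (P := modulus T S₀) dvd_rfl c1 c2 c3 c4 c5
    hh0 hinj hW hp
  refine ⟨hp.1, hp.2.1, hp.2.2.1, hp.2.2.2, g1, g2, fun M hM U hU => ?_⟩
  obtain ⟨a1, a2⟩ := g3 U hU M hM
  refine ⟨a1, fun hcr V hV => ?_⟩
  have hbV : IsBase V := ⟨fun d hd => g2.1 d (hV hd), fun V' hV' hne => g2.2 V' (hV'.trans hV) hne⟩
  refine single hbV a1 ?_
  intro b hb V' hV' D z hD hz
  rw [Finset.mem_singleton.1 hb, one_mul] at hz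
  exact a2 (good_of hT hcr) V' (hV'.trans hV) D z hD hz

lemma exists_residue {T S₀ : Finset ℤ} (hT : ∀ M ∈ T, Adm M) (hS₀ : ∀ d ∈ S₀, Adm d) :
    ∃ c, Residue T S₀ c := by
  have hcop1 : ∀ M : ℤ, Adm M → Nat.Coprime 504 M.natAbs := by
    intro M hM
    refine Nat.Coprime.symm (Nat.coprime_of_dvd fun p hp hpM hp5 => ?_)
    obtain ⟨h1, h9⟩ := hM.2.2.2 p hp (Int.natCast_dvd.2 hpM)
    have h5 : p ∣ 2 ^ 3 * (3 ^ 2 * 7) := by norm_num; exact hp5
    have h6 : p = 2 ∨ p = 3 ∨ p = 7 := by
      rcases (Nat.Prime.dvd_mul hp).1 h5 with h | h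
      · exact Or.inl ((Nat.prime_dvd_prime_iff_eq hp Nat.prime_two).1 (hp.dvd_of_dvd_pow h))
      · rcases (Nat.Prime.dvd_mul hp).1 h with h | h
        · exact Or.inr (Or.inl ((Nat.prime_dvd_prime_iff_eq hp Nat.prime_three).1
            (hp.dvd_of_dvd_pow h)))
        · exact Or.inr (Or.inr ((Nat.prime_dvd_prime_iff_eq hp (by norm_num)).1 h))
    rcases h6 with rfl | rfl | rfl
    · rcases h1 with h1 | h1
      · have := h1.2.1
        omega
      · rcases h1.2.1 with h | h <;> omega
    · omega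
    · rcases h1 with h1 | h1
      · rcases h1.2.2 with h | h | h <;> omega
      · rcases h1.2.2 with h | h | h <;> omega
  set Q : ℕ := (∏ M ∈ T, M.natAbs) * ∏ d ∈ S₀, d.natAbs with hQ
  have hcop : Nat.Coprime 504 Q := Nat.Coprime.mul_right
    (Nat.Coprime.prod_right fun M hM => hcop1 M (hT M hM))
    (Nat.Coprime.prod_right fun M hM => hcop1 M (hS₀ M hM))
  obtain ⟨c, hc1, hc2⟩ := Nat.chineseRemainder hcop 227 1
  have e8 : c % 8 = 3 := hc1.of_dvd (by norm_num : (8 : ℕ) ∣ 504)
  have e7 : c % 7 = 3 := hc1.of_dvd (by norm_num : (7 : ℕ) ∣ 504)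
  have e9 : c % 9 = 2 := hc1.of_dvd (by norm_num : (9 : ℕ) ∣ 504)
  refine ⟨c, ?_, e8, Or.inl e7, Or.inl e9, fun M hM l hl hlM _ => ?_⟩
  · refine Nat.Coprime.mul_right ?_ ?_
    · rw [Nat.coprime_iff_gcd_eq_one, hc1.gcd_eq]
      decide
    · rw [Nat.coprime_iff_gcd_eq_one, hc2.gcd_eq]
      exact Nat.gcd_one_left _
  · have h1 : l ∣ Q := by
      rcases Finset.mem_union.1 hM with h | h
      · exact ((Int.natCast_dvd.1 hlM).trans (Finset.dvd_prod_of_mem _ h)).trans (Dvd.intro _ rfl)
      · exact ((Int.natCast_dvd.1 hlM).trans (Finset.dvd_prod_of_mem _ h)).trans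
          (Dvd.intro_left _ rfl)
    have h2 : (c : ZMod l) = ((1 : ℕ) : ZMod l) :=
      (ZMod.natCast_eq_natCast_iff _ _ _).2 (hc2.of_dvd h1)
    rw [h2, Nat.cast_one]
    exact ⟨1, (one_mul 1).symm⟩

/-- **Main theorem.** For all finite subsets `T`, `S₀` of the class, `S₀` independent modulo squares, there
are classes `c` with `Residue T S₀ c`, and for all of them and for almost all the configurations in Bohr
sets there are many clusters of primes with the following property, for `S = {p_0*, …, p_n*}`. If the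
criterion for `S₀` is satisfied for all the elements of `T`, then for the twists of the curves `E_M`,
`M ∈ T`, by the products of the elements of the subsets of `S`, and over all the fields
`ℚ(√d : d ∈ V)`, `V ⊆ S₀ ∪ S`, the order at `s = 1` and the rank are zero. -/
theorem result (k : ℕ) (η : ℝ) (hη : 0 < η) :
    ∃ (z d C X₀ : ℕ) (ρ b : ℝ), 0 < ρ ∧ 0 < b ∧
      ∀ T S₀ : Finset ℤ, (∀ M ∈ T, Adm M) → IsBase S₀ → (∃ c, Residue T S₀ c) ∧
        ∀ c : ℕ, Residue T S₀ c → ∀ X : ℕ, X₀ ≤ X →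
        ∃ (θ : Fin d → ℝ) (H : Finset (Fin k → ℤ)),
          b * X ≤ ((bohrSet θ ρ X).ncard : ℝ) ∧
          (∀ h ∈ H, (∀ i, h i ∈ bohrSet θ ρ X ∧ h i ≠ 0) ∧ Function.Injective h) ∧
          (1 - η) * ((bohrSet θ ρ X).ncard : ℝ) ^ k ≤ (H.card : ℝ) ∧
          ∃ᶠ N : ℕ in atTop, ∀ h ∈ H, (N : ℝ) / (Real.log N) ^ C ≤
            ((goodPrimes T S₀ c (modulus T S₀ * z.factorial) h N).ncard : ℝ) := by
  obtain ⟨z, d, C, X₀, ρ, b, hρ, hb, hS⟩ := Pool.Agent.V11161.BH.bohrAPU k η hη
  refine ⟨z, d, C, X₀, ρ, b, hρ, hb, fun T S₀ hT hS₀ => ⟨exists_residue hT hS₀.1,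
    fun c hc X hX => ?_⟩⟩
  have hP0 : 0 < modulus T S₀ := Nat.mul_pos (by norm_num) (Nat.mul_pos
    (Finset.prod_pos fun M hM => Int.natAbs_pos.2 (hT M hM).1.ne_zero)
    (Finset.prod_pos fun M hM => Int.natAbs_pos.2 (hS₀.1 M hM).1.ne_zero))
  obtain ⟨θ, H, h1, h2, h3, h4⟩ := hS (modulus T S₀) hP0 c hc.1 X hX
  refine ⟨θ, H, h1, h2, h3, h4.mono fun N hN h hh => (hN h hh).trans ?_⟩
  rw [Nat.cast_le]
  refine Set.ncard_le_ncard (classPrimes_sub hT hS₀ hc (fun i => ((h2 h hh).1 i).2)
    (h2 h hh).2 (Nat.mul_pos hP0 z.factorial_pos) N) ((Set.finite_Iic N).subset fun p hp => hp.1)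

end Pool.Agent.Results.MP_413b36_nt.ClusterExtensions
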