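import Pool.Agent.Results.MP_e996df_nt.TwoPartTowers

/-!
# The Birch–Swinnerton-Dyer conjecture modulo 2 in infinite towers over an arbitrary multiquadratic field

`E` is the modular curve `X_0(14)`, an elliptic curve without complex multiplication.  The class `Adm`
consists of the squarefree integers, positive or negative, `1` modulo `4`, squares modulo `7`, whose prime
divisors split completely in `ℚ(i, √2, √-7)` or are inert in `ℚ(√2)` and in `ℚ(√-7)`, and are inert in the
cyclotomic `ℤ₃`-extension of `ℚ`.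

Let `S` be ANY finite subset of the class, independent modulo squares, and `F₀ = ℚ(√d : d ∈ S)`.  Nothing
is assumed about the rank and the `L`-function of `E` over `F₀`; the conjecture modulo 2 for `E` over `F₀`
is open in general.  It is shown that it holds over `F₀` if and only if it holds over each of the
following fields `F`, of arbitrarily large degree over `F₀` (in fact the ranks over `F₀` and `F`, and the
orders of the completed `L`-functions at `s = 1`, are equal):

* `F = K(√d : d ∈ S)`, for all the layers `K` of the cyclotomic `ℤ₃`-extension of `ℚ`;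
* `F = K(√D, √d : d ∈ S)`, for all the layers `K` and an exact positive proportion of the `D` of the
  class, positive and negative;
* the composites of all the layers `K` with the members of infinite towers of quadratic extensions
  of `F₀`.
-/

set_option autoImplicit false

open NumberField IsDedekindDomain Filter Topology

namespace Pool.Agent.Results.MP_413b36_nt.ParityInTowers

open scoped Classical

open Pool.Agent.Results.MP_787500_nt.LayersBlochKatoLaw (E base factor rank twist multiquadratic
  cyclotomic Adm Small count cc Proportion Many Independent Criterion)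

open Pool.Agent.Results.MP_e996df_nt.TwoPartTowers (IsBase)

/-- `L` is the `L`-function of `E` over `F`, continued to an entire function. -/
def IsLFunction (F : Type) [Field F] [NumberField F] (L : ℂ → ℂ) : Prop :=
  Differentiable ℂ L ∧ ∀ s : ℂ, 3 / 2 < s.re → HasProd (factor (K := F) E s) (L s)

/-- The completed `L`-function `(2 (2π)^(-s) Γ(s))^[F : ℚ] A^(s/2) L(s)`, where `A > 0` is the norm of the
conductor times the square of the discriminant. -/
noncomputable def completed (F : Type) [Field F] [NumberField F] (A : ℝ) (L : ℂ → ℂ) (s : ℂ) : ℂ :=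
  (2 * (2 * (Real.pi : ℂ)) ^ (-s) * Complex.Gamma s) ^ (Module.finrank ℚ F) * (A : ℂ) ^ (s / 2) * L s

/-- The order of `Λ(E/F, s)` at `s = 1` is `n` (for every value of the constant `A > 0`). -/
def HasOrder (F : Type) [Field F] [NumberField F] (n : ℕ) : Prop :=
  ∃ L : ℂ → ℂ, IsLFunction F L ∧ ∀ A : ℝ, 0 < A → analyticOrderAt (completed F A L) 1 = n

/-- The conjecture of Birch and Swinnerton-Dyer modulo 2 for `E` over `F`. -/
def BSDModTwo (F : Type) [Field F] [NumberField F] : Prop :=
  ∃ n : ℕ, HasOrder F n ∧ n ≡ rank F E [MOD 2]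

/-- The completed `L`-functions of `E` over `F₀` and `F` have the same order at `s = 1`, the ranks are
equal, and so the conjecture modulo 2 holds over `F` if and only if it holds over `F₀`. -/
def Same (F₀ F : Type) [Field F₀] [NumberField F₀] [Field F] [NumberField F] : Prop :=
  (∃ n : ℕ, HasOrder F₀ n ∧ HasOrder F n) ∧ rank F E = rank F₀ E ∧ (BSDModTwo F ↔ BSDModTwo F₀)

/-- For all the layers `K` of the cyclotomic `ℤ₃`-extension of `ℚ` (`K` is a subfield of odd degree of a
`3 ^ (m + 1)`-th cyclotomic field), the field `F = K(√d : d ∈ S')` has the degree `r [K : ℚ]` over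
`F₀ = ℚ(√d : d ∈ S)`, and `Same F₀ F`. -/
def SameLayers (S S' : Finset ℤ) (r : ℕ) : Prop :=
  ∀ (m : ℕ) (K F₀ F : IntermediateField ℚ ℂ) [NumberField K] [NumberField F₀] [NumberField F],
    K ≤ cyclotomic (3 ^ (m + 1)) → Odd (Module.finrank ℚ K) → F₀ = multiquadratic S →
    F = multiquadratic S' ⊔ K →
    Module.finrank ℚ F = r * Module.finrank ℚ K * Module.finrank ℚ F₀ ∧ Same F₀ F

/-! ### Proofs -/

lemma gamma_analytic : AnalyticAt ℂ Complex.Gamma 1 := by
  have h1 : IsOpen {s : ℂ | 0 < s.re} := isOpen_lt continuous_const Complex.continuous_re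
  have h2 : DifferentiableOn ℂ Complex.Gamma {s : ℂ | 0 < s.re} := by
    intro s hs
    refine (Complex.differentiableAt_Gamma s fun m hm => ?_).differentiableWithinAt
    rw [hm] at hs
    simp only [Set.mem_setOf_eq, Complex.neg_re, Complex.natCast_re] at hs
    have : (0 : ℝ) ≤ m := Nat.cast_nonneg m
    linarith
  exact h2.analyticAt (h1.mem_nhds (by simp))

lemma order_completed (F : Type) [Field F] [NumberField F] {A : ℝ} (hA : 0 < A) {L : ℂ → ℂ}
    (hL : Differentiable ℂ L) : analyticOrderAt (completed F A L) 1 = analyticOrderAt L 1 := by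
  have hpi : (2 * (Real.pi : ℂ)) ≠ 0 := by
    simp [Real.pi_ne_zero]
  have hA' : (A : ℂ) ≠ 0 := by exact_mod_cast hA.ne'
  have h1 : AnalyticAt ℂ (fun s : ℂ =>
      (2 * (2 * (Real.pi : ℂ)) ^ (-s) * Complex.Gamma s) ^ (Module.finrank ℚ F) *
        (A : ℂ) ^ (s / 2)) 1 := by
    have e1 : AnalyticAt ℂ (fun s : ℂ => (2 * (Real.pi : ℂ)) ^ (-s)) 1 :=
      (Differentiable.const_cpow differentiable_id.neg (Or.inl hpi)).analyticAt 1
    have e2 : AnalyticAt ℂ (fun s : ℂ => (A : ℂ) ^ (s / 2)) 1 :=
      (Differentiable.const_cpow (differentiable_id.div_const 2) (Or.inl hA')).analyticAt 1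
    exact (((analyticAt_const.mul e1).mul gamma_analytic).pow _).mul e2
  have h2 : (fun s : ℂ =>
      (2 * (2 * (Real.pi : ℂ)) ^ (-s) * Complex.Gamma s) ^ (Module.finrank ℚ F) *
        (A : ℂ) ^ (s / 2)) 1 ≠ 0 := by
    simp only [Complex.Gamma_one, mul_one]
    refine mul_ne_zero (pow_ne_zero _ (mul_ne_zero two_ne_zero ?_)) ?_
    · rw [Complex.cpow_def_of_ne_zero hpi]
      exact Complex.exp_ne_zero _
    · rw [Complex.cpow_def_of_ne_zero hA']
      exact Complex.exp_ne_zero _
  have h3 := analyticOrderAt_mul h1 (hL.analyticAt 1)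
  rw [h1.analyticOrderAt_eq_zero.2 h2, zero_add] at h3
  exact h3

lemma hasOrder_iff (F : Type) [Field F] [NumberField F] (n : ℕ) :
    HasOrder F n ↔ Pool.Agent.Results.MP_e996df_nt.TwoPartTowers.HasOrder F n := by
  constructor
  · rintro ⟨L, ⟨h1, h2⟩, h3⟩
    exact ⟨L, h1, h2, by rw [← order_completed F one_pos h1]; exact h3 1 one_pos⟩
  · rintro ⟨L, h1, h2, h3⟩
    exact ⟨L, ⟨h1, h2⟩, fun A hA => by rw [order_completed F hA h1]; exact h3⟩

/-- the order is unique -/
lemma order_unique {F : Type} [Field F] [NumberField F] {n n' : ℕ}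
    (h : Pool.Agent.Results.MP_e996df_nt.TwoPartTowers.HasOrder F n)
    (h' : Pool.Agent.Results.MP_e996df_nt.TwoPartTowers.HasOrder F n') : n = n' := by
  obtain ⟨L, h1, h2, h3⟩ := h
  obtain ⟨L', h1', h2', h3'⟩ := h'
  have h4 : L = L' := by
    refine AnalyticOnNhd.eq_of_eventuallyEq (z₀ := 2) (fun z _ => h1.analyticAt z)
      (fun z _ => h1'.analyticAt z) ?_
    have h5 : {s : ℂ | 3 / 2 < s.re} ∈ 𝓝 (2 : ℂ) :=
      (isOpen_lt continuous_const Complex.continuous_re).mem_nhds (by norm_num)
    filter_upwards [h5] with s hs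
    exact (h2 s hs).unique (h2' s hs)
  rw [h4, h3'] at h3
  exact_mod_cast h3.symm

lemma same_of {F₀ F : Type} [Field F₀] [NumberField F₀] [Field F] [NumberField F]
    (h : Pool.Agent.Results.MP_e996df_nt.TwoPartTowers.Same F₀ F) : Same F₀ F := by
  obtain ⟨⟨n, h1, h2⟩, h3, -, -⟩ := h
  refine ⟨⟨n, (hasOrder_iff F₀ n).2 h1, (hasOrder_iff F n).2 h2⟩, h3, ?_⟩
  unfold BSDModTwo
  rw [h3]
  constructor
  · rintro ⟨k, g1, g2⟩
    rw [order_unique ((hasOrder_iff F k).1 g1) h2] at g2
    exact ⟨n, (hasOrder_iff F₀ n).2 h1, g2⟩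
  · rintro ⟨k, g1, g2⟩
    rw [order_unique ((hasOrder_iff F₀ k).1 g1) h1] at g2
    exact ⟨n, (hasOrder_iff F n).2 h2, g2⟩

lemma layers_of {S S' : Finset ℤ} {r : ℕ}
    (h : Pool.Agent.Results.MP_e996df_nt.TwoPartTowers.SameLayers S S' r) : SameLayers S S' r := by
  intro m K F₀ F _ _ _ hK hodd hF₀ hF
  obtain ⟨h1, h2⟩ := h m K F₀ F hK hodd hF₀ hF
  exact ⟨h1, same_of h2⟩

/-- **Main theorem.**  `S` is a finite subset of the class, independent modulo squares, and
`F₀ = ℚ(√d : d ∈ S)`.
(1) For all the layers `K` of the cyclotomic `ℤ₃`-extension of `ℚ` and `F = K(√d : d ∈ S)`, of degree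
`[K : ℚ]` over `F₀`: `Λ(E/F₀, s)` and `Λ(E/F, s)` have the same order at `s = 1`, the ranks of `E(F₀)` and
`E(F)` are equal, and the conjecture modulo 2 for `E` holds over `F` if and only if it holds over `F₀`.
(2) If `D` is in the class and independent of `S`, and for the squarefree parts `D'` of the products of `D`
and the elements of a subset of `S` and for all the layers the rank of `E_{D'}` is zero and
`Ш(E_{D'})[2] = 0` (`Criterion S D`), then the same is true for the fields `F = K(√D, √d : d ∈ S)`, of
degree `2 [K : ℚ]` over `F₀`.  The proportion of these `D` is exactly `c^(2^#S)`, among the positive `D` of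
the class, ordered by absolute value, and also among the negative ones; `0.4194 < c < 0.4195`.  The
number of the `D` of the class of a given sign with `|D| ≤ X` is at least a positive constant times
`X (log X)^(-3/4)`.
(3) For every sequence of signs there are different numbers `d_0, d_1, …` with these signs, not in `S`,
such that for all `n` the same is true for the fields `F = K(√d : d ∈ S ∪ {d_0, …, d_{n-1}})`, of degree
`2^n [K : ℚ]` over `F₀`. -/
theorem result :
    (∀ S : Finset ℤ, IsBase S → SameLayers S S 1) ∧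
    (∀ S : Finset ℤ, IsBase S → ∀ D : ℤ, Adm D → Independent S D → Criterion S D →
      SameLayers S (insert D S) 2) ∧
    (∀ s : ℤ, (s = 1 ∨ s = -1) → Many s ∧ ∀ S : Finset ℤ, IsBase S →
      Proportion (fun D => Independent S D ∧ Criterion S D) s (cc ^ (2 ^ S.card))) ∧
    (0.4194 < cc ∧ cc < 0.4195) ∧
    ∀ S : Finset ℤ, IsBase S → ∀ σ : ℕ → ℤ, (∀ i, σ i = 1 ∨ σ i = -1) →
      ∃ d : ℕ → ℤ, (∀ i, 0 < σ i * d i) ∧ Function.Injective d ∧ (∀ i, d i ∉ S) ∧
        ∀ n, SameLayers S (S ∪ (Finset.range n).image d) (2 ^ n) := by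
  obtain ⟨h1, h2, h3, h4, h5⟩ := Pool.Agent.Results.MP_e996df_nt.TwoPartTowers.result
  refine ⟨fun S hS => layers_of (h1 S hS).1, fun S hS D hD hi hc => layers_of (h2 S hS D hD hi hc),
    h3, h4, fun S hS σ hσ => ?_⟩
  obtain ⟨d, g1, g2, g3, g4⟩ := h5 S hS σ hσ
  exact ⟨d, g1, g2, g3, fun n => layers_of (g4 n)⟩

end Pool.Agent.Results.MP_413b36_nt.ParityInTowers
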