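import Pool.Agent.Results.MP_0b9e0b_ag.MultiquadraticProducts
import Pool.Agent.V1110.SpB

/-!
# Order and rank zero over multiquadratic fields, for families of twists by the terms of sparse sequences,
# and over towers of fields generated by the square roots of such terms

`E_M` is the quadratic twist by `M` of `X_0(14)`, an elliptic curve without complex multiplication with one
rational point of order two. Let `S` and `B` be finite subsets of a class of squarefree integers, `S`
independent modulo squares, the elements of `B` different modulo squares and products of elements of `S`,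
and `k = ℚ(√d : d ∈ S)`, of degree `2^#S`. By the result `MultiquadraticProducts` (MP_0b9e0b_ag), for a
proportion of exactly `c^(#B 2^#S)` of the `D` of the class, `c = ∏_{i ≥ 0} (1 - 2^{-(2 i + 1)}) = 0.419...`,
the conjecture holds modulo two, and in fact exactly, for all the curves `E_{b D}`, `b ∈ B`, over `k`: the
`L`-function is entire and its order at `s = 1` and the rank are both zero.

Here `D` runs through the elements of the class in the sequence `s ⌊α n ^ p⌋` (`s = ± 1`), where `p > 1`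
is any real number: a sparse sequence (about `X^{1/p}` integers up to `X`). The theorem: there is one
set `A₀` of real numbers of Hausdorff dimension smaller than one such that for all real `α > 0` outside
`A₀` the proportion is the same, for both signs and for ALL `S` and `B`; and there are infinite towers of
fields, generated by the square roots of terms of the sequence, with arbitrary signs, over all of which the
orders and the ranks of given curves `E_M`, `M ∈ T`, are zero.
-/

set_option autoImplicit false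

open Filter Topology NumberField IsDedekindDomain

namespace Pool.Agent.Results.MP_413b36_nt.SparseSequences

open Pool.Agent.TH841.NF.D (Sha)

open Pool.Agent.Results.MP_787500_nt.LayersBlochKatoLaw (Adm Small P1 R small_iff count cc
  Proportion Many base factor rank twist multiquadratic)
open Pool.Agent.Results.MP_0b9e0b_ag.MultiquadraticProducts (IsBase IsFamily IsTwists Criterion
  factorX dimension BeilinsonBloch Holds)

/-- the number of the `1 ≤ n ≤ N` such that `D = s ⌊α n ^ p⌋` has the property `Q` -/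
noncomputable def along (α p : ℝ) (s : ℤ) (Q : ℤ → Prop) (N : ℕ) : ℕ :=
  Nat.card {n : ℕ // (1 ≤ n ∧ n ≤ N) ∧ Q (s * (⌊α * (n : ℝ) ^ p⌋₊ : ℤ))}

open Classical in
/-- `L` is entire and is, for `Re s > 3/2`, the `L`-function of `E_M` over `k` without the Euler factors at
the places that divide `42 M N` (these do not change the order at `s = 1`) -/
def IsL (k : Type) [Field k] [NumberField k] (M N : ℤ) (L : ℂ → ℂ) : Prop :=
  Differentiable ℂ L ∧ ∀ s : ℂ, 3 / 2 < s.re →
    HasProd (fun v : HeightOneSpectrum (𝓞 k) =>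
      if ((42 * M * N : ℤ) : 𝓞 k) ∈ v.asIdeal then 1 else factor (K := k) (twist M) s v) (L s)

lemma isL_of {k : Type} [Field k] [NumberField k] {M N : ℤ} {L : ℂ → ℂ} (h : Differentiable ℂ L)
    (h2 : ∀ s : ℂ, 3 / 2 < s.re → HasProd (factorX k {M} N s) (L s)) : IsL k M N L := by
  classical
  refine ⟨h, fun s hs => ?_⟩
  have h5 := h2 s hs
  have e : factorX k {M} N s = fun v : HeightOneSpectrum (𝓞 k) =>
      if ((42 * M * N : ℤ) : 𝓞 k) ∈ v.asIdeal then 1 else factor (K := k) (twist M) s v := by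
    funext v
    unfold factorX
    rw [Finset.prod_singleton]
  rw [e] at h5
  exact h5

/-- Over `k = ℚ(√d : d ∈ S)`, of degree `2^#S`, the rank of `E_M` is zero, the `L`-function is entire, its
order at `s = 1` is the rank, and the 2-primary part of `Ш(E_M/k)` is killed by `2^#S`. -/
def OrderIsRank (S : Finset ℤ) (M : ℤ) : Prop :=
  ∀ (k : IntermediateField ℚ ℂ) [NumberField k], k = multiquadratic S →
    Module.finrank ℚ k = 2 ^ S.card ∧ rank k (twist M) = 0 ∧
    (∃ L : ℂ → ℂ, IsL k M (∏ d ∈ S, d) L ∧ analyticOrderAt L 1 = rank k (twist M)) ∧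
    ∀ (j : ℕ) (y : Sha (base (twist M) k)), 2 ^ j • y = 0 → 2 ^ S.card • y = 0

/-- `D` is in the class, `Criterion B S D` holds, and `OrderIsRank S M` is true for all the squarefree parts
`M` of the products `b D`, `b ∈ B` -/
def Event (B S : Finset ℤ) (D : ℤ) : Prop :=
  Adm D ∧ Criterion B S D ∧ ∀ b ∈ B, ∀ M j : ℤ, Adm M → D * b = M * j ^ 2 → OrderIsRank S M

lemma single {S : Finset ℤ} (hS : IsBase S) {B : Finset ℤ} (hB : IsFamily B S) {D : ℤ} (hD : Adm D)
    (hc : Criterion B S D) {b : ℤ} (hb : b ∈ B) {M j : ℤ} (hM : Adm M) (hj : D * b = M * j ^ 2) :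
    OrderIsRank S M := by
  have hB1 : IsFamily {b} S := ⟨fun x hx => by
      rw [Finset.mem_singleton.1 hx]
      exact hB.1 b hb, fun x hx y hy hne => absurd ((Finset.mem_singleton.1 hx).trans
      (Finset.mem_singleton.1 hy).symm) hne⟩
  obtain ⟨T, h1, h2, h3⟩ := Pool.Agent.Results.MP_0b9e0b_ag.MultiquadraticProducts.result.1 S {b} hS hB1 D hD
  have h4 : Holds S T := h3 fun x hx U hU D' k hD' hk =>
    hc x (by rw [Finset.mem_singleton.1 hx]; exact hb) U hU D' k hD' hk
  have hMT : M ∈ T := (h1 M).2 ⟨hM, b, Finset.mem_singleton_self b, j, hj⟩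
  have hT : T = {M} := by
    rw [Finset.card_singleton] at h2
    obtain ⟨x, hx⟩ := Finset.card_eq_one.1 h2
    rw [hx] at hMT ⊢
    rw [Finset.mem_singleton.1 hMT]
  subst hT
  intro k _ hk
  obtain ⟨g1, ⟨L, g2, g3, g4⟩, g5, g6⟩ := h4 k hk
  have hdim : dimension k {M} = rank k (twist M) := by
    unfold dimension
    rw [Finset.sum_singleton]
  exact ⟨g1, hdim.symm.trans g5, ⟨L, isL_of g2 g3, by rw [g4, hdim]⟩,
    g6 M (Finset.mem_singleton_self M)⟩

lemma event_iff {B S : Finset ℤ} (hS : IsBase S) (hB : IsFamily B S) (D : ℤ) :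
    Event B S D ↔ Adm D ∧ Criterion B S D := by
  unfold Event
  constructor
  · rintro ⟨h1, h2, -⟩
    exact ⟨h1, h2⟩
  · rintro ⟨h1, h2⟩
    exact ⟨h1, h2, fun b hb M j hM hj => single hS hB h1 h2 hb hM hj⟩

/-- large terms of the sequence -/
lemma exists_term {α p c : ℝ} {s : ℤ} {P Q : ℤ → Prop} (hc : 0 < c) (A : ℝ)
    (hp : Tendsto (fun N : ℕ => (along α p s P N : ℝ) / along α p s Q N) atTop (𝓝 c))
    (hQ : ∃ b : ℝ, 0 < b ∧ ∃ N₀ : ℕ, ∀ N : ℕ, N₀ ≤ N →
      b * N * (Real.log N) ^ (-A) ≤ (along α p s Q N : ℝ)) (B : ℕ) :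
    ∃ n : ℕ, B < n ∧ P (s * ⌊α * (n : ℝ) ^ p⌋₊) := by
  classical
  by_contra hcon
  push Not at hcon
  obtain ⟨b, hb, N₀, hN₀⟩ := hQ
  have h2 : ∀ N : ℕ, (along α p s P N : ℝ) ≤ (B : ℝ) := by
    intro N
    have h3 : along α p s P N =
        ((Finset.Icc 1 N).filter fun n : ℕ => P (s * ⌊α * (n : ℝ) ^ p⌋₊)).card := by
      unfold along
      refine Nat.subtype_card _ fun n => ?_
      rw [Finset.mem_filter, Finset.mem_Icc]
    have h4 : ((Finset.Icc 1 N).filter fun n : ℕ => P (s * ⌊α * (n : ℝ) ^ p⌋₊)) ⊆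
        Finset.Icc 1 B := by
      intro n hn
      rw [Finset.mem_filter] at hn
      rw [Finset.mem_Icc]
      refine ⟨(Finset.mem_Icc.1 hn.1).1, ?_⟩
      by_contra h5
      exact hcon n (by omega) hn.2
    have h5 := Finset.card_le_card h4
    rw [Nat.card_Icc, Nat.add_sub_cancel, ← h3] at h5
    exact_mod_cast h5
  have htop : Tendsto (fun N : ℕ => (along α p s Q N : ℝ)) atTop atTop := by
    obtain ⟨N₁, hN₁⟩ := Pool.Agent.V1110.SpA.beats b A (1 / 2) 1 hb (by norm_num)
    have h1 : Tendsto (fun N : ℕ => (N : ℝ) ^ (1 / 2 : ℝ)) atTop atTop :=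
      (tendsto_rpow_atTop (by norm_num)).comp tendsto_natCast_atTop_atTop
    refine tendsto_atTop_mono' _ ?_ h1
    filter_upwards [eventually_ge_atTop (max N₀ N₁)] with N hN
    have h3 := hN₀ N ((le_max_left _ _).trans hN)
    have h4 := hN₁ N ((le_max_right _ _).trans hN)
    rw [Real.rpow_neg (Real.log_natCast_nonneg N), ← div_eq_mul_inv] at h3
    have e : (1 : ℝ) - 1 / 2 = 1 / 2 := by norm_num
    rw [e, one_mul] at h4
    exact h4.trans h3
  have h3 : Tendsto (fun N : ℕ => (B : ℝ) / (along α p s Q N : ℝ)) atTop (𝓝 0) :=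
    htop.const_div_atTop _
  have h4 : c ≤ 0 := by
    refine le_of_tendsto_of_tendsto hp h3 (Eventually.of_forall fun N => ?_)
    exact div_le_div_of_nonneg_right (h2 N) (Nat.cast_nonneg _)
  linarith

/-- a number with a new prime factor is independent -/
lemma not_sq {D P q : ℤ} (hq : Prime q) (hD : Squarefree D) (h1 : q ∣ D) (h2 : ¬ q ∣ P) :
    ¬ IsSquare (P * D) := by
  rintro ⟨x, hx⟩
  have h3 : q ∣ x := by
    have h4 : q ∣ x * x := by
      rw [← hx]
      exact h1.mul_left _
    rcases hq.dvd_or_dvd h4 with h | h <;> exact h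
  have h5 : q * q ∣ P * D := by
    rw [hx]
    exact mul_dvd_mul h3 h3
  have h6 : IsCoprime (q * q) P := by
    have h7 : IsCoprime q P := hq.coprime_iff_not_dvd.2 h2
    exact h7.mul_left h7
  exact hq.not_isUnit (hD q (h6.dvd_of_dvd_mul_left h5))

/-- a large squarefree number has a new prime factor -/
lemma new_prime {D P : ℤ} (hD : Squarefree D) (hP : P ≠ 0) (h : P.natAbs < D.natAbs) :
    ∃ q : ℤ, Prime q ∧ q ∣ D ∧ ¬ q ∣ P := by
  by_contra hcon
  push Not at hcon
  have h1 : D.natAbs ∣ P.natAbs := by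
    rw [← Nat.prod_primeFactors_of_squarefree (Int.squarefree_natAbs.2 hD)]
    refine Finset.prod_primes_dvd _
      (fun q hq => (Nat.prime_of_mem_primeFactors hq).prime) fun q hq => ?_
    have h2 := hcon (q : ℤ) (Nat.prime_iff_prime_int.1 (Nat.prime_of_mem_primeFactors hq))
      (Int.natCast_dvd.2 (Nat.dvd_of_mem_primeFactors hq))
    exact Int.natCast_dvd.1 h2
  have h3 := Nat.le_of_dvd (Int.natAbs_pos.2 hP) h1
  omega

lemma adm_one : Adm 1 := by
  refine ⟨squarefree_one, by norm_num, Or.inl (by norm_num), fun q hq hq1 => ?_⟩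
  exfalso
  have h3 : (q : ℤ) ∣ ((1 : ℕ) : ℤ) := hq1
  exact hq.one_lt.ne' (Nat.dvd_one.1 (Int.natCast_dvd_natCast.1 h3))

lemma small_one : Small 1 := by
  classical
  refine (small_iff 1 adm_one).2 ?_
  have h : P1 1 = ∅ := by
    unfold P1
    rw [Int.natAbs_one, Nat.primeFactors_one, Finset.filter_empty]
  have : IsEmpty (P1 1) := by
    rw [h]
    exact Finset.isEmpty_coe_sort.2 rfl
  rw [Matrix.det_isEmpty]
  exact one_ne_zero

lemma crit_one : Criterion {1} ∅ 1 := by
  intro b hb U hU D' k hD' hk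
  rw [Finset.subset_empty] at hU
  subst hU
  rw [Finset.mem_singleton.1 hb, Finset.prod_empty, one_mul, one_mul] at hk
  have h1 : IsUnit k := by
    have h2 : k ∣ 1 := ⟨D' * k, by rw [hk]; ring⟩
    exact isUnit_of_dvd_one h2
  have h3 : k ^ 2 = 1 := by
    rcases Int.isUnit_iff.1 h1 with rfl | rfl <;> norm_num
  rw [h3, mul_one] at hk
  rw [← hk]
  exact small_one

/-- **Main theorem.** Let `p > 1` be a real number. There is a set `A₀` of real numbers of Hausdorff
dimension smaller than one such that for all real `α > 0` not in `A₀`: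
(1) For `s = 1` and `s = -1`, at least `b N (log N)^(-3/4)` of the `n ≤ N` are such that
`D = s ⌊α n ^ p⌋` is in the class, and for all `S`, `B` (`S` a finite subset of the class, independent
modulo squares, `B` a finite subset of the class whose elements are different modulo squares and products
of elements of `S`), among these `n` the proportion of those with `Event B S D` (so that the order of the
`L`-function at `s = 1` is the rank, zero, for all the curves `E_{b D}`, `b ∈ B`, over `ℚ(√d : d ∈ S)`) is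
exactly `c^(#B 2^#S)`; `0.4194 < c < 0.4195`.
(2) Let `S` and `T` be as `S` and `B` in (1) and let `Criterion T S 1` hold. Then for each sequence of signs
`σ_i` there are `n_0 < n_1 < …` such that the numbers `d_i = σ_i ⌊α n_i ^ p⌋` are different and not in `S` and
for all `m` the set `S_m = S ∪ {d_0, …, d_{m-1}}` is a subset of the class, independent modulo squares, and
the order of the `L`-function at `s = 1` is the rank, zero, for all the curves `E_M`, `M ∈ T`, over the field
`ℚ(√d : d ∈ S_m)` of degree `2^#S_m`. The hypotheses are true for `T = {1}` and the empty set `S`. -/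
theorem result (p : ℝ) (hp : 1 < p) : (0.4194 < cc ∧ cc < 0.4195) ∧
    (IsBase ∅ ∧ IsFamily {1} ∅ ∧ Criterion {1} ∅ 1) ∧
    ∃ A₀ : Set ℝ, dimH A₀ < 1 ∧ ∀ α : ℝ, 0 < α → α ∉ A₀ →
      (∀ s : ℤ, (s = 1 ∨ s = -1) →
        (∃ b : ℝ, 0 < b ∧ ∃ N₀ : ℕ, ∀ N : ℕ, N₀ ≤ N →
          b * N * (Real.log N) ^ (-(3 / 4) : ℝ) ≤ (along α p s Adm N : ℝ)) ∧
        ∀ S B : Finset ℤ, IsBase S → IsFamily B S →
          Tendsto (fun N : ℕ => (along α p s (Event B S) N : ℝ) / along α p s Adm N) atTop
            (𝓝 (cc ^ (B.card * 2 ^ S.card)))) ∧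
      ∀ T S : Finset ℤ, IsBase S → IsFamily T S → Criterion T S 1 →
        ∀ σ : ℕ → ℤ, (∀ i, σ i = 1 ∨ σ i = -1) →
        ∃ (n : ℕ → ℕ) (d : ℕ → ℤ), StrictMono n ∧ (∀ i, d i = σ i * ⌊α * (n i : ℝ) ^ p⌋₊) ∧
          Function.Injective d ∧ (∀ i, d i ∉ S) ∧
          ∀ m, IsBase (S ∪ (Finset.range m).image d) ∧
            ∀ M ∈ T, OrderIsRank (S ∪ (Finset.range m).image d) M := by
  have h0 : IsBase ∅ := ⟨fun d hd => absurd hd (Finset.notMem_empty d), fun T hT hT' => by
    rw [Finset.subset_empty] at hT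
    subst hT
    exact absurd hT' Finset.not_nonempty_empty⟩
  refine ⟨Pool.Agent.Results.MP_0b9e0b_ag.MultiquadraticProducts.result.2.2, ⟨h0, ⟨fun x hx => by
      rw [Finset.mem_singleton.1 hx]
      exact adm_one, fun x hx y hy hne => absurd ((Finset.mem_singleton.1 hx).trans
      (Finset.mem_singleton.1 hy).symm) hne⟩, crit_one⟩, ?_⟩
  obtain ⟨A₀, hA₀, h⟩ := Pool.Agent.V1110.SpA.ratio_int p hp
    (ι := Finset ℤ × Finset ℤ) (fun v => Event v.1 v.2) (fun _ => Adm)
  refine ⟨A₀, hA₀, fun α hα hαA => ?_⟩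
  have hcount : ∀ (s : ℤ) (X : ℕ), count (fun D => Adm D ∧ 0 < s * D) X =
      Nat.card {D : ℤ // |D| ≤ X ∧ 0 < s * D ∧ Adm D} := by
    intro s X
    unfold count
    refine Nat.card_congr (Equiv.subtypeEquivRight fun D => ?_)
    tauto
  have key : ∀ s : ℤ, (s = 1 ∨ s = -1) → ∀ S B : Finset ℤ, IsBase S → IsFamily B S →
      Tendsto (fun N : ℕ => (along α p s (Event B S) N : ℝ) / along α p s Adm N) atTop
          (𝓝 (cc ^ (B.card * 2 ^ S.card))) ∧
        ∃ b : ℝ, 0 < b ∧ ∃ N0 : ℕ, ∀ N : ℕ, N0 ≤ N →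
          b * N * (Real.log N) ^ (-(3 / 4) : ℝ) ≤ (along α p s Adm N : ℝ) := by
    intro s hs S B hS hB
    obtain ⟨hmany, hprop⟩ :=
      Pool.Agent.Results.MP_0b9e0b_ag.MultiquadraticProducts.result.2.1 s hs
    obtain ⟨a, X₀, ha, hX₀⟩ := hmany
    have hQ : ∃ X0 : ℕ, ∀ X : ℕ, X0 ≤ X → a * X * (Real.log X) ^ (-(3 / 4) : ℝ) ≤
        (Nat.card {D : ℤ // |D| ≤ X ∧ 0 < s * D ∧ Adm D} : ℝ) :=
      ⟨X₀, fun X hX => by
        rw [← hcount]
        exact hX₀ X hX⟩
    refine h α hα hαA (B, S) s hs _ a (3 / 4) ha (by norm_num) hQ ?_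
    have h1 := hprop S B hS hB
    unfold Proportion at h1
    refine h1.congr fun X => ?_
    rw [hcount]
    have e : count (fun D => Adm D ∧ 0 < s * D ∧ Criterion B S D) X =
        Nat.card {D : ℤ // |D| ≤ X ∧ 0 < s * D ∧ Event B S D} := by
      unfold count
      refine Nat.card_congr (Equiv.subtypeEquivRight fun D => ?_)
      rw [event_iff hS hB]
      tauto
    rw [e]
  have h1 : IsFamily ∅ ∅ := ⟨fun d hd => absurd hd (Finset.notMem_empty d),
    fun b hb => absurd hb (Finset.notMem_empty b)⟩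
  refine ⟨fun s hs => ⟨(key s hs ∅ ∅ h0 h1).2, fun S B hS hB => (key s hs S B hS hB).1⟩,
    fun T S hS hT hA σ hσ => ?_⟩
  -- the towers
  have hcc : 0 < cc := by
    have h2 : (0.4194 : ℝ) < cc :=
      Pool.Agent.Results.MP_0b9e0b_ag.MultiquadraticProducts.result.2.2.1
    linarith
  obtain ⟨M₁, hM₁⟩ := Pool.Agent.Y854.GM.last_ge hα hp
  have step : ∀ (s : {s : ℤ // s = 1 ∨ s = -1})
      (U : {U : Finset ℤ × ℕ // IsBase U.1 ∧ IsFamily T U.1 ∧ Criterion T U.1 1}),
      ∃ n : ℕ, U.1.2 < n ∧ (s.1 * (⌊α * (n : ℝ) ^ p⌋₊ : ℤ)) ∉ U.1.1 ∧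
        (IsBase (insert (s.1 * (⌊α * (n : ℝ) ^ p⌋₊ : ℤ)) U.1.1) ∧
          IsFamily T (insert (s.1 * (⌊α * (n : ℝ) ^ p⌋₊ : ℤ)) U.1.1) ∧
          Criterion T (insert (s.1 * (⌊α * (n : ℝ) ^ p⌋₊ : ℤ)) U.1.1) 1) := by
    rintro ⟨s, hs⟩ ⟨⟨U, B⟩, hU, hF, hG⟩
    obtain ⟨k1, k2⟩ := key s hs U T hU hF
    set P : ℤ := (∏ x ∈ U, x) * ∏ x ∈ T, x with hP
    have hP0 : P ≠ 0 := by
      rw [hP]
      refine mul_ne_zero (Finset.prod_ne_zero_iff.2 fun x hx => (hU.1 x hx).1.ne_zero)
        (Finset.prod_ne_zero_iff.2 fun x hx => (hF.1 x hx).1.ne_zero)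
    obtain ⟨n, hn, hev⟩ := exists_term (pow_pos hcc _) (3 / 4) k1 k2 (max B (max M₁ P.natAbs))
    have hD := hev.1
    have hcr := hev.2.1
    set D : ℤ := s * (⌊α * (n : ℝ) ^ p⌋₊ : ℤ) with hDdef
    have hDn : D.natAbs = ⌊α * (n : ℝ) ^ p⌋₊ := by
      rw [hDdef, Int.natAbs_mul, Int.natAbs_natCast]
      rcases hs with rfl | rfl <;> simp
    have hlt : P.natAbs < D.natAbs := by
      rw [hDn]
      have h2 : P.natAbs < n := lt_of_le_of_lt ((le_max_right _ _).trans (le_max_right _ _)) hn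
      have h3 : M₁ ≤ n := ((le_max_left _ _).trans (le_max_right _ _)).trans hn.le
      exact lt_of_lt_of_le h2 (hM₁ n h3)
    obtain ⟨q, hq, hqD, hqP⟩ := new_prime hD.1 hP0 hlt
    have hqU : ∀ V ⊆ U, ¬ q ∣ ∏ x ∈ V, x := by
      intro V hV hdvd
      refine hqP ?_
      rw [hP]
      exact Dvd.dvd.mul_right (hdvd.trans (Finset.prod_dvd_prod_of_subset _ _ _ hV)) _
    have hqT : ∀ M ∈ T, ¬ q ∣ M := by
      intro M hM hdvd
      refine hqP ?_
      rw [hP]
      exact Dvd.dvd.mul_left (hdvd.trans (Finset.dvd_prod_of_mem _ hM)) _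
    have hDU : D ∉ U := by
      intro hmem
      have h2 := hqU {D} (Finset.singleton_subset_iff.2 hmem)
      rw [Finset.prod_singleton] at h2
      exact h2 hqD
    -- subsets of the new set
    have hsub : ∀ V ⊆ insert D U, D ∉ V → V ⊆ U := by
      intro V hV hDV x hx
      rcases Finset.mem_insert.1 (hV hx) with rfl | h2
      · exact absurd hx hDV
      · exact h2
    have hsub' : ∀ V ⊆ insert D U, V.erase D ⊆ U := by
      intro V hV
      exact hsub _ ((Finset.erase_subset _ _).trans hV) (Finset.notMem_erase _ _)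
    refine ⟨n, lt_of_le_of_lt (le_max_left _ _) hn, hDU, ⟨fun x hx => ?_, fun V hV hVn => ?_⟩,
      ⟨hF.1, fun M hM M' hM' hne V hV => ?_⟩, fun M hM V hV D' k hD' hk => ?_⟩
    · rcases Finset.mem_insert.1 hx with rfl | h2
      · exact hD
      · exact hU.1 x h2
    · by_cases hDV : D ∈ V
      · rw [← Finset.prod_erase_mul _ _ hDV]
        exact not_sq hq hD.1 hqD (hqU _ (hsub' V hV))
      · exact hU.2 V (hsub V hV hDV) hVn
    · by_cases hDV : D ∈ V
      · rw [← Finset.prod_erase_mul _ _ hDV, ← mul_assoc]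
        refine not_sq hq hD.1 hqD fun h2 => ?_
        rcases hq.dvd_or_dvd h2 with h3 | h3
        · rcases hq.dvd_or_dvd h3 with h4 | h4
          · exact hqT M hM h4
          · exact hqT M' hM' h4
        · exact hqU _ (hsub' V hV) h3
      · exact hF.2 M hM M' hM' hne V (hsub V hV hDV)
    · by_cases hDV : D ∈ V
      · refine hcr M hM (V.erase D) (hsub' V hV) D' k hD' ?_
        rw [← hk, ← Finset.prod_erase_mul _ _ hDV]
        ring
      · exact hG M hM V (hsub V hV hDV) D' k hD' hk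
  choose f hf using step
  let g : {s : ℤ // s = 1 ∨ s = -1} →
      {U : Finset ℤ × ℕ // IsBase U.1 ∧ IsFamily T U.1 ∧ Criterion T U.1 1} →
      {U : Finset ℤ × ℕ // IsBase U.1 ∧ IsFamily T U.1 ∧ Criterion T U.1 1} := fun s U =>
    ⟨(insert (s.1 * (⌊α * (f s U : ℝ) ^ p⌋₊ : ℤ)) U.1.1, f s U), (hf s U).2.2⟩
  let V : ℕ → {U : Finset ℤ × ℕ // IsBase U.1 ∧ IsFamily T U.1 ∧ Criterion T U.1 1} := fun i =>
    Nat.rec ⟨(S, 0), hS, hT, hA⟩ (fun i U => g ⟨σ i, hσ i⟩ U) i
  have hV : ∀ i, V (i + 1) = g ⟨σ i, hσ i⟩ (V i) := fun i => rfl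
  let n : ℕ → ℕ := fun i => f ⟨σ i, hσ i⟩ (V i)
  let d : ℕ → ℤ := fun i => σ i * (⌊α * (n i : ℝ) ^ p⌋₊ : ℤ)
  have hV1 : ∀ i, (V (i + 1)).1.1 = insert (d i) (V i).1.1 := fun i => by
    rw [hV]
  have hV2 : ∀ i, (V (i + 1)).1.2 = n i := fun i => by
    rw [hV]
  have hset : ∀ m, (V m).1.1 = S ∪ (Finset.range m).image d := by
    intro m
    induction m with
    | zero =>
      rw [Finset.range_zero, Finset.image_empty, Finset.union_empty]
      rfl
    | succ m ih =>
      rw [hV1, ih, Finset.range_add_one, Finset.image_insert, Finset.union_insert]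
  have hnot : ∀ i, d i ∉ (V i).1.1 := fun i => (hf ⟨σ i, hσ i⟩ (V i)).2.1
  refine ⟨n, d, strictMono_nat_of_lt_succ fun i => ?_, fun i => rfl, ?_, fun i hi => ?_, fun m => ?_⟩
  · have h2 := (hf ⟨σ (i + 1), hσ (i + 1)⟩ (V (i + 1))).1
    rw [hV2] at h2
    exact h2
  · have hlt : ∀ i j, i < j → d i ≠ d j := by
      intro i j hij he
      refine hnot j ?_
      rw [hset j, ← he]
      exact Finset.mem_union_right _ (Finset.mem_image_of_mem _ (Finset.mem_range.2 hij))
    intro i j he
    rcases lt_trichotomy i j with h2 | h2 | h2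
    · exact absurd he (hlt i j h2)
    · exact h2
    · exact absurd he.symm (hlt j i h2)
  · refine hnot i ?_
    rw [hset i]
    exact Finset.mem_union_left _ hi
  · have h2 := (V m).2
    rw [hset m] at h2
    refine ⟨h2.1, fun M hM => ?_⟩
    refine single h2.1 h2.2.1 adm_one h2.2.2 hM (h2.2.1.1 M hM) (j := 1) ?_
    rw [one_pow, one_mul, mul_one]

end Pool.Agent.Results.MP_413b36_nt.SparseSequences
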